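import Pool.Agent.W263.HI.Mero
import Pool.Agent.W263.EP.Conc

/-!
# The mean square of partial Euler products at the centre and the Hardy space

`K` is a number field.  A system of real numbers `t v j` stands for the traces of the `j`-th power of
the geometric Frobenius at the finite place `v` on `H = H^{2m-1}(X)`, `S` is a finite set of places
which contains all places of bad reduction, and `L(H, s)` is the Euler product over the places `v ∉ S`.
All that is used about the traces is the bound `|t v j| ≤ D Nv^{(2m-1)j/2}`, which is Deligne's theorem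
for all smooth projective `X`, with `D = dim H^{2m-1}(X)`, and which Part D proves for all products of
curves `y² = f_i(x)`, `deg f_i` odd, over any number field.  The Dirichlet series
`log L(H, s) = ∑ t_v(j) / (j Nv^{js})` converges absolutely for `Re s > m + 1/2` only.  If `L(H, s)` behaves
near `s = m` like `e^μ (s - m)^ρ`, one expects of its partial sums at `s = m`

  `G(x) = ∑_{Nv^j ≤ x} t_v(j) / (j Nv^{jm}) = μ - ρ (log log x + γ) + o(1)`,

which is the analogue of the original conjecture of Birch and Swinnerton-Dyer.  Here this law is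
considered in mean square, `I(ρ, μ) = ∫_1^∞ (G(x) + ρ (log log x + γ) - μ)² dx/x < ∞`, and no continuation
of `L(H, s)` is assumed: `I(ρ, μ) < ∞` if and only if `log L(H, s)` continues analytically to
`Re s > m` and `(log L(H, s) - ρ log (s - m) - μ) / (s - m)` belongs to the Hardy space `H²` of this half
plane; and then `2π I(ρ, μ)` is the square of its norm.
-/

set_option autoImplicit false

namespace Pool.Agent.Results.MP_b8021b_nt.MeanSquareLaw

open NumberField IsDedekindDomain Filter Topology Polynomial MeasureTheory Set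
open Pool.Agent.W263.MS (HardyLog FinLog offE)
open scoped ENNReal

variable {K : Type} [Field K] [NumberField K]

/-- `|t_v(j)| ≤ D Nv^{(2m-1)j/2}` for all `v ∉ S` and all `j ≥ 1`. -/
def WeightBound (t : HeightOneSpectrum (𝓞 K) → ℕ → ℝ) (m : ℕ)
    (S : Finset (HeightOneSpectrum (𝓞 K))) (D : ℝ) : Prop :=
  0 ≤ D ∧ ∀ v, v ∉ S → ∀ j : ℕ, 1 ≤ j →
    |t v j| ≤ D * (Ideal.absNorm v.asIdeal : ℝ) ^ ((2 * (m : ℝ) - 1) * j / 2)

open Classical in
/-- The Euler product `L(H, s)` over the places `v ∉ S`, the factor at `v` is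
`det(1 - Frob_v Nv^{-s} | H)⁻¹ = exp(∑_{j ≥ 1} t_v(j) Nv^{-js} / j)`. -/
noncomputable def LFun (t : HeightOneSpectrum (𝓞 K) → ℕ → ℝ) (S : Finset (HeightOneSpectrum (𝓞 K)))
    (s : ℂ) : ℂ :=
  ∏' v : HeightOneSpectrum (𝓞 K),
    if v ∈ S then 1
    else Complex.exp (∑' j : ℕ, (t v (j + 1) : ℂ) *
      ((Ideal.absNorm v.asIdeal : ℕ) : ℂ) ^ (-((j + 1 : ℂ) * s)) / (j + 1))

open Classical in
/-- The Dirichlet series `log L(H, s) = ∑_{v ∉ S, j ≥ 1} t_v(j) Nv^{-js} / j`. -/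
noncomputable def logSeries (t : HeightOneSpectrum (𝓞 K) → ℕ → ℝ)
    (S : Finset (HeightOneSpectrum (𝓞 K))) (s : ℂ) : ℂ :=
  ∑' q : HeightOneSpectrum (𝓞 K) × ℕ, if q.1 ∈ S then 0 else (t q.1 (q.2 + 1) : ℂ) *
    ((Ideal.absNorm q.1.asIdeal : ℕ) : ℂ) ^ (-((q.2 + 1 : ℂ) * s)) / (q.2 + 1)

/-- `G(x) = ∑_{v ∉ S, j ≥ 1, Nv^j ≤ x} t_v(j) / (j Nv^{jm})`, the partial sums of `log L(H, m)`. -/
noncomputable def logSum (t : HeightOneSpectrum (𝓞 K) → ℕ → ℝ) (m : ℕ)
    (S : Finset (HeightOneSpectrum (𝓞 K))) (x : ℝ) : ℝ :=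
  ∑ᶠ q ∈ {q : HeightOneSpectrum (𝓞 K) × ℕ |
      q.1 ∉ S ∧ 1 ≤ q.2 ∧ (Ideal.absNorm q.1.asIdeal : ℝ) ^ q.2 ≤ x},
    t q.1 q.2 / ((q.2 : ℝ) * (Ideal.absNorm q.1.asIdeal : ℝ) ^ (q.2 * m))

/-- `G(x) + ρ (log log x + γ) - μ`. -/
noncomputable def dev (t : HeightOneSpectrum (𝓞 K) → ℕ → ℝ) (m : ℕ)
    (S : Finset (HeightOneSpectrum (𝓞 K))) (ρ μ x : ℝ) : ℝ :=
  logSum t m S x + ρ * (Real.log (Real.log x) + Real.eulerMascheroniConstant) - μ

/-- `I(ρ, μ, δ) = ∫_1^∞ (G(x) + ρ (log log x + γ) - μ)² x^{-2δ} dx/x`. -/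
noncomputable def meanSquare (t : HeightOneSpectrum (𝓞 K) → ℕ → ℝ) (m : ℕ)
    (S : Finset (HeightOneSpectrum (𝓞 K))) (ρ μ δ : ℝ) : ℝ≥0∞ :=
  ∫⁻ x in Ioi (1 : ℝ), ENNReal.ofReal (dev t m S ρ μ x ^ 2 * x ^ (-(2 * δ)) / x)

/-- `ℓ` is an analytic continuation of `log L(H, s)` to the half plane `Re s > m`. -/
def IsLog (t : HeightOneSpectrum (𝓞 K) → ℕ → ℝ) (m : ℕ)
    (S : Finset (HeightOneSpectrum (𝓞 K))) (ℓ : ℂ → ℂ) : Prop :=
  (∀ s : ℂ, (m : ℝ) < s.re → DifferentiableAt ℂ ℓ s) ∧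
    ∀ s : ℂ, (m : ℝ) + 1 / 2 < s.re → ℓ s = logSeries t S s

/-- `H(σ) = ∫ |(ℓ(s) - ρ log (s - m) - μ) / (s - m)|² |ds|` over the line `Re s = σ`. -/
noncomputable def lineIntegral (m : ℕ) (ℓ : ℂ → ℂ) (ρ μ σ : ℝ) : ℝ≥0∞ :=
  ∫⁻ y : ℝ, ENNReal.ofReal (‖ℓ ((σ : ℂ) + y * Complex.I) -
    ρ * Complex.log ((σ : ℂ) + y * Complex.I - m) - μ‖ ^ 2 / ‖(σ : ℂ) + y * Complex.I - m‖ ^ 2)

/-- `F` is an analytic continuation of `L(H, s)` to the half plane `Re s > a`, `a ≤ m`. -/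
def Continues (t : HeightOneSpectrum (𝓞 K) → ℕ → ℝ) (m : ℕ)
    (S : Finset (HeightOneSpectrum (𝓞 K))) (F : ℂ → ℂ) (a : ℝ) : Prop :=
  (∀ s : ℂ, a < s.re → DifferentiableAt ℂ F s) ∧
    ∀ s : ℂ, (m : ℝ) + 1 / 2 < s.re → F s = LFun t S s

/-- `F` is meromorphic at `s = m` of order `n`, and `log |F(s)| - n log (s - m) → μ` as `s → m⁺`, that is,
`e^μ` is the absolute value of the leading coefficient. -/
def HasLeading (m : ℕ) (F : ℂ → ℂ) (n : ℤ) (μ : ℝ) : Prop :=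
  MeromorphicAt F m ∧ meromorphicOrderAt F m = n ∧
    Tendsto (fun s : ℝ => Real.log ‖F s‖ - n * Real.log (s - m)) (𝓝[>] (m : ℝ)) (𝓝 μ)

/-! ### Products of curves -/

/-- Number of affine points of `y² = f(x)` with coordinates in the extension of degree `j` of the
finite field `k`, that is, the field of the elements of the algebraic closure of `k` that are fixed
by the `j`-th power of the Frobenius of `k`. -/
noncomputable def affineCount (k : Type) [Field k] (f : k[X]) (j : ℕ) : ℕ :=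
  Nat.card {P : AlgebraicClosure k × AlgebraicClosure k //
    P.1 ^ (Nat.card k ^ j) = P.1 ∧ P.2 ^ (Nat.card k ^ j) = P.2 ∧ P.2 ^ 2 = aeval P.1 f}

/-- Trace of the `j`-th power of the Frobenius at `v` on `H¹` of the smooth projective curve
`y² = f(x)`, `deg f` odd: it is `q^j + 1` minus the number of points over the field with `q^j`
elements, and there is one point at infinity. -/
noncomputable def traceH1 (v : HeightOneSpectrum (𝓞 K)) (f : (𝓞 K)[X]) (j : ℕ) : ℤ :=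
  haveI : v.asIdeal.IsMaximal := v.isMaximal
  letI : Field (𝓞 K ⧸ v.asIdeal) := Ideal.Quotient.field v.asIdeal
  (Ideal.absNorm v.asIdeal : ℤ) ^ j + 1 -
    (affineCount (𝓞 K ⧸ v.asIdeal) (f.map (Ideal.Quotient.mk v.asIdeal)) j + 1)

/-- Trace of the `j`-th power of the Frobenius at `v` on `H^{2m-1}(X)`, `X` the product of the curves
`y² = f_i(x)`: by the Künneth formula it is the coefficient of `T^{2m-1}` in
`∏_i (1 + Tr(Frob^j | H¹(C_i)) T + q^j T²)`, `q = Nv`. -/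
noncomputable def traceH {n : ℕ} (f : Fin n → (𝓞 K)[X]) (m : ℕ) (v : HeightOneSpectrum (𝓞 K))
    (j : ℕ) : ℝ :=
  (((∏ i, (1 + C (traceH1 v (f i) j) * X + C ((Ideal.absNorm v.asIdeal : ℤ) ^ j) * X ^ 2)).coeff
    (2 * m - 1) : ℤ) : ℝ)

/-- The dimension of `H^{2m-1}(X)`: the coefficient of `T^{2m-1}` in `∏_i (1 + 2g_i T + T²)`,
`2g_i = deg f_i - 1`. -/
noncomputable def bettiNumber {n : ℕ} (f : Fin n → (𝓞 K)[X]) (m : ℕ) : ℕ :=
  (∏ i, (1 + C ((f i).natDegree - 1) * X + X ^ 2 : ℕ[X])).coeff (2 * m - 1)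

/-! ### Conversion to the general setting -/

theorem affineCount_eq (k : Type) [Field k] (f : k[X]) (m : ℕ) :
    affineCount k f m = Pool.Agent.H126T.affPts k f 1 m := by
  unfold affineCount Pool.Agent.H126T.affPts
  simp only [map_one, one_mul]

theorem cen (m : ℕ) : ((2 * (m : ℝ) - 1) + 1) / 2 = m := by ring

theorem cen2 (m : ℕ) : ((2 * (m : ℝ) - 1) + 2) / 2 = (m : ℝ) + 1 / 2 := by ring

theorem norm_ge_two (v : HeightOneSpectrum (𝓞 K)) : (2 : ℝ) ≤ (Ideal.absNorm v.asIdeal : ℝ) :=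
  Pool.Agent.W263.EP.N_real_two (S := Pool.Agent.H341R2.sysK K) v

theorem tdata {t : HeightOneSpectrum (𝓞 K) → ℕ → ℝ} {m : ℕ}
    {S : Finset (HeightOneSpectrum (𝓞 K))} {D : ℝ} (ht : WeightBound t m S D) :
    Pool.Agent.W263.EP.TData (Pool.Agent.H341R2.sysK K)
      (Pool.Agent.W263.EP.tn (Pool.Agent.H341R2.sysK K)
        (S : Set (HeightOneSpectrum (𝓞 K))) t (2 * (m : ℝ) - 1)) D :=
  Pool.Agent.W263.EP.tdata ht.1 fun v hv j hj => ht.2 v hv j hj

theorem MK_eq (t : HeightOneSpectrum (𝓞 K) → ℕ → ℝ) (m : ℕ)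
    (S : Finset (HeightOneSpectrum (𝓞 K))) (x : ℝ) :
    Pool.Agent.W263.LG.MK (Pool.Agent.H341R2.sysK K) (S : Set (HeightOneSpectrum (𝓞 K))) t
      (2 * (m : ℝ) - 1) 0 x = logSum t m S x := by
  unfold Pool.Agent.W263.LG.MK logSum
  refine finsum_mem_eq_of_bijOn (fun p => (p.1, p.2 + 1)) ⟨?_, ?_, ?_⟩ ?_
  · rintro ⟨v, j⟩ ⟨h1, h2⟩
    exact ⟨h1, by simp, h2⟩
  · rintro ⟨v, j⟩ _ ⟨v', j'⟩ _ h
    have h1 := (Prod.ext_iff.mp h).1
    have h2 := (Prod.ext_iff.mp h).2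
    simp only [Nat.add_right_cancel_iff] at h1 h2
    exact Prod.ext h1 h2
  · rintro ⟨v, j⟩ ⟨h1, h2, h3⟩
    simp only at h1 h2 h3
    obtain ⟨i, rfl⟩ : ∃ i, j = i + 1 := ⟨j - 1, by omega⟩
    exact ⟨(v, i), ⟨h1, h3⟩, rfl⟩
  · rintro ⟨v, j⟩ _
    have hN : (0 : ℝ) < (Ideal.absNorm v.asIdeal : ℝ) := by linarith [norm_ge_two v]
    have e : ((Pool.Agent.H341R2.sysK K).N v : ℝ) = (Ideal.absNorm v.asIdeal : ℝ) := rfl
    simp only []
    have e2 : (-(((j : ℝ) + 1) * (((2 * (m : ℝ) - 1) + 1) / 2))) = -(((j + 1) * m : ℕ) : ℝ) := by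
      rw [cen m]; push_cast; ring
    rw [e, e2, Real.rpow_neg hN.le, Real.rpow_natCast, pow_zero, one_mul]
    push_cast
    have h1 : ((j : ℝ) + 1) ≠ 0 := by positivity
    have h2 : (Ideal.absNorm v.asIdeal : ℝ) ^ ((j + 1) * m) ≠ 0 := by positivity
    field_simp

theorem castc (m : ℕ) : (((2 * (m : ℝ) - 1 : ℝ) : ℂ) + 1) / 2 = (m : ℂ) := by
  push_cast
  ring

theorem LL_eq (t : HeightOneSpectrum (𝓞 K) → ℕ → ℝ) (m : ℕ)
    (S : Finset (HeightOneSpectrum (𝓞 K))) (s : ℂ) :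
    Pool.Agent.W263.EP.LL (Pool.Agent.H341R2.sysK K)
      (Pool.Agent.W263.EP.tn (Pool.Agent.H341R2.sysK K)
        (S : Set (HeightOneSpectrum (𝓞 K))) t (2 * (m : ℝ) - 1)) (s - m) = logSeries t S s := by
  have h := Pool.Agent.W263.HI.LL_series (Pool.Agent.H341R2.sysK K)
    (S : Set (HeightOneSpectrum (𝓞 K))) t (2 * (m : ℝ) - 1) s
  rw [castc] at h
  rw [h]
  unfold logSeries
  refine tsum_congr fun (q : HeightOneSpectrum (𝓞 K) × ℕ) => ?_
  by_cases hv : q.1 ∈ S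
  · exact (if_pos (show q.1 ∈ (S : Set (HeightOneSpectrum (𝓞 K))) from hv)).trans (if_pos hv).symm
  · exact (if_neg (show q.1 ∉ (S : Set (HeightOneSpectrum (𝓞 K))) from hv)).trans (if_neg hv).symm

/-- **The mean square law at the centre.**

Let `t` be a system of Frobenius traces of weight `2m - 1` over a number field `K`, as above; `ρ` and `μ` are
real numbers, `I(ρ, μ, δ) = ∫_1^∞ (G(x) + ρ (log log x + γ) - μ)² x^{-2δ} dx/x` and
`H(σ) = ∫_{Re s = σ} |(log L(H, s) - ρ log (s - m) - μ) / (s - m)|² |ds|`.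

Part A.  No continuation is assumed.
1. `I(ρ, μ, 0) < ∞` if and only if `log L(H, s)` continues analytically to `Re s > m` and `H(σ)` is bounded
for `m < σ ≤ m + 1`.
2. In this case `H(σ) = 2π I(ρ, μ, σ - m)` for all `σ > m`, `H(σ) → 2π I(ρ, μ, 0)` as `σ → m⁺`,
`|log L(H, s) - ρ log (s - m) - μ|² ≤ |s - m|² / (2 (Re s - m)) · I(ρ, μ, 0)` for all `Re s > m`,
`G(x) + ρ (log log x + γ) → μ` as `x → ∞` outside a set of finite logarithmic measure, and `ρ`, `μ` are the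
only numbers with `I(ρ, μ, 0) < ∞`.

Part B.  Let `F` be an analytic continuation of `L(H, s)` to `Re s > m` which is meromorphic at `s = m` of
order `n` with leading coefficient of absolute value `e^μ`.  Then `I(ρ, μ', 0) < ∞` if and only if `F` has
a logarithm `ℓ` on `Re s > m` with `∫_{Re s = σ} |ℓ(s)|² / (1 + |Im s|²) |ds|` bounded for `m < σ ≤ m + 1`,
`ρ = n` and `μ' = μ`.

Part C.  If moreover `F` is analytic and of polynomial growth for `Re s > m - 1`, then equivalent are: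
`F(s) ≠ 0` for `Re s > m`; the condition on the logarithm in Part B; `I(n, μ, 0) < ∞`; for some `ρ'`, `μ'` the
logarithmic mean of `|G(x) + ρ' (log log x + γ) - μ'|` over `[2, X]` tends to `0` as `X → ∞`.

Part D.  The assumption on the traces holds for `H^{2m-1}(X)` with `D = dim H^{2m-1}(X)`, if `X` is a
product of curves `y² = f_i(x)` over `K`, `deg f_i` odd, and `S` contains the places which divide `2`
or the leading coefficient of an `f_i`. -/
theorem result :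
    (∀ (K : Type) [Field K] [NumberField K] (t : HeightOneSpectrum (𝓞 K) → ℕ → ℝ) (m : ℕ)
      (S : Finset (HeightOneSpectrum (𝓞 K))) (D : ℝ) (_ : WeightBound t m S D),
      (∀ ρ μ : ℝ, meanSquare t m S ρ μ 0 < ⊤ ↔ ∃ ℓ : ℂ → ℂ, IsLog t m S ℓ ∧
        ∃ C : ℝ, ∀ σ : ℝ, (m : ℝ) < σ → σ ≤ m + 1 →
          lineIntegral m ℓ ρ μ σ ≤ ENNReal.ofReal C) ∧
      (∀ (ℓ : ℂ → ℂ) (_ : IsLog t m S ℓ) (ρ μ : ℝ) (_ : meanSquare t m S ρ μ 0 < ⊤),
        (∀ σ : ℝ, (m : ℝ) < σ → lineIntegral m ℓ ρ μ σ =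
          ENNReal.ofReal (2 * Real.pi) * meanSquare t m S ρ μ (σ - m)) ∧
        Tendsto (lineIntegral m ℓ ρ μ) (𝓝[>] (m : ℝ))
          (𝓝 (ENNReal.ofReal (2 * Real.pi) * meanSquare t m S ρ μ 0)) ∧
        (∀ s : ℂ, (m : ℝ) < s.re → ‖ℓ s - ρ * Complex.log (s - m) - μ‖ ^ 2 ≤
          ‖s - m‖ ^ 2 / (2 * (s.re - m)) * (meanSquare t m S ρ μ 0).toReal) ∧
        (∃ X : Set ℝ, FinLog X ∧ Tendsto (dev t m S ρ μ) (offE X) (𝓝 0)) ∧
        ∀ ρ' μ' : ℝ, meanSquare t m S ρ' μ' 0 < ⊤ → ρ' = ρ ∧ μ' = μ) ∧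
      (∀ (F : ℂ → ℂ) (n : ℤ) (μ : ℝ) (_ : Continues t m S F m) (_ : HasLeading m F n μ) (ρ μ' : ℝ),
        meanSquare t m S ρ μ' 0 < ⊤ ↔ HardyLog m F ∧ ρ = n ∧ μ' = μ) ∧
      (∀ (F : ℂ → ℂ) (n : ℤ) (μ : ℝ) (_ : Continues t m S F (m - 1)) (_ : HasLeading m F n μ)
        (_ : ∃ (C : ℝ) (A : ℕ), ∀ s : ℂ, (m : ℝ) - 1 < s.re → ‖F s‖ ≤ C * (1 + ‖s‖) ^ A),
        List.TFAE [
          ∀ s : ℂ, (m : ℝ) < s.re → F s ≠ 0,
          HardyLog m F,
          meanSquare t m S n μ 0 < ⊤,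
          ∃ ρ' μ' : ℝ, Tendsto (fun X : ℝ => (Real.log X)⁻¹ *
            ∫ x in Ioc 2 X, |dev t m S ρ' μ' x| / x) atTop (𝓝 0)])) ∧
    (∀ (K : Type) [Field K] [NumberField K] (n : ℕ) (f : Fin n → (𝓞 K)[X])
      (_ : ∀ i, Odd (f i).natDegree) (S : Finset (HeightOneSpectrum (𝓞 K)))
      (_ : ∀ v, v ∉ S → ∀ i, 2 * (f i).leadingCoeff ∉ v.asIdeal) (m : ℕ) (_ : 1 ≤ m),
      WeightBound (traceH f m) m S (bettiNumber f m)) := by
  refine ⟨?_, ?_⟩
  · intro K _ _ t m S D ht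
    have E := tdata ht
    have hdv : ∀ ρ μ x : ℝ, Pool.Agent.W263.LG.MK (Pool.Agent.H341R2.sysK K)
        (S : Set (HeightOneSpectrum (𝓞 K))) t (2 * (m : ℝ) - 1) 0 x -
          Pool.Agent.W263.LG.mt ρ μ 0 x = dev t m S ρ μ x := by
      intro ρ μ x
      rw [MK_eq]
      unfold Pool.Agent.W263.LG.mt dev
      rw [harmonic_zero]
      push_cast
      ring
    have hdev : ∀ ρ μ δ : ℝ, Pool.Agent.W263.HI.devSq (Pool.Agent.W263.LG.MK
        (Pool.Agent.H341R2.sysK K) (S : Set (HeightOneSpectrum (𝓞 K))) t (2 * (m : ℝ) - 1) 0)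
        ρ μ δ = meanSquare t m S ρ μ δ := by
      intro ρ μ δ
      unfold Pool.Agent.W263.HI.devSq meanSquare dev
      simp only [MK_eq]
    have hcc : ((((2 * (m : ℝ) - 1) + 1) / 2 : ℝ) : ℂ) = (m : ℂ) := by
      rw [cen, Complex.ofReal_natCast]
    have hhar : ∀ (ℓ : ℂ → ℂ) (ρ μ σ : ℝ), Pool.Agent.W263.HI.hardyInt
        (((2 * (m : ℝ) - 1) + 1) / 2) ℓ ρ μ σ = lineIntegral m ℓ ρ μ σ := by
      intro ℓ ρ μ σ
      unfold Pool.Agent.W263.HI.hardyInt lineIntegral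
      rw [hcc]
    have hlog : ∀ ℓ : ℂ → ℂ, Pool.Agent.W263.HI.IsLogOf (Pool.Agent.H341R2.sysK K)
        (S : Set (HeightOneSpectrum (𝓞 K))) t (2 * (m : ℝ) - 1) ℓ ↔ IsLog t m S ℓ := by
      intro ℓ
      unfold Pool.Agent.W263.HI.IsLogOf IsLog
      rw [cen, cen2, castc]
      simp only [LL_eq]
    have hL : ∀ s, Pool.Agent.W263.EP.LF (Pool.Agent.H341R2.sysK K)
        (S : Set (HeightOneSpectrum (𝓞 K))) t s = LFun t S s := by
      intro s
      unfold Pool.Agent.W263.EP.LF LFun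
      refine tprod_congr fun (v : HeightOneSpectrum (𝓞 K)) => ?_
      by_cases hv : v ∈ S
      · have h1 : v ∈ (S : Set (HeightOneSpectrum (𝓞 K))) := hv
        exact (if_pos h1).trans (if_pos hv).symm
      · have h1 : v ∉ (S : Set (HeightOneSpectrum (𝓞 K))) := hv
        exact (if_neg h1).trans (if_neg hv).symm
    refine ⟨?_, ?_, ?_, ?_⟩
    · intro ρ μ
      have key := Pool.Agent.W263.HI.main_iff (ρ := ρ) (L := μ) E
      rw [hdev] at key
      simp only [hlog, hhar] at key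
      simp only [cen] at key
      exact key
    · intro ℓ hℓ ρ μ h
      have h' := h
      rw [← hdev] at h'
      obtain ⟨k1, k2, k3⟩ := Pool.Agent.W263.HI.main_identity E ((hlog ℓ).mpr hℓ) h'
      obtain ⟨X, hX, hl⟩ := Pool.Agent.W263.HI.main_exc E h'
      have hf : Pool.Agent.W263.HI.hardyInt (((2 * (m : ℝ) - 1) + 1) / 2) ℓ ρ μ =
          lineIntegral m ℓ ρ μ := funext fun σ => hhar ℓ ρ μ σ
      rw [hf] at k2
      simp only [hhar, hdev] at k1 k2 k3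
      simp only [hcc] at k3
      simp only [cen] at k1 k2 k3
      refine ⟨k1, k2, k3, ⟨X, hX, ?_⟩, fun ρ' μ' h2 => ?_⟩
      · simp only [hdv] at hl
        exact hl
      · rw [← hdev] at h2
        exact Pool.Agent.W263.HI.main_unique E h2 h'
    · intro F n μ hF hl ρ μ'
      have key := Pool.Agent.W263.HI.mero_iff (F := F) (n := n) (L := μ) E
        (fun s hs => hF.1 s (by rwa [cen] at hs))
        (fun s hs => (hF.2 s (by rwa [cen2] at hs)).trans (hL s).symm)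
        (by rw [hcc]; exact hl.1) (by rw [hcc]; exact hl.2.1)
        (by unfold Pool.Agent.W263.LG.CLim; rw [cen]; exact hl.2.2) ρ μ'
      rw [hdev, cen] at key
      rw [key]
      exact and_congr_right fun _ => and_congr eq_comm eq_comm
    · intro F n μ hF hl hg
      have key := Pool.Agent.W263.HI.growth_tfae (F := F) (n := n) (L := μ) E
        (fun s hs => hF.1 s (by rwa [cen] at hs))
        (fun s hs => (hF.2 s (by rwa [cen2] at hs)).trans (hL s).symm)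
        (by rw [hcc]; exact hl.2.1)
        (by unfold Pool.Agent.W263.LG.CLim; rw [cen]; exact hl.2.2)
        (by rw [cen]; exact hg)
      have k12 := key.out 0 1
      have k13 := key.out 0 2
      have k14 := key.out 0 3
      simp only [cen] at k12 k13 k14
      tfae_have 1 ↔ 2 := k12
      tfae_have 1 ↔ 3 := by
        rw [← hdev]
        exact k13
      tfae_have 1 ↔ 4 := by
        simp only [← hdv]
        exact k14
      tfae_finish
  · intro K _ _ n f hodd S hS m hm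
    refine ⟨by positivity, fun v hv j hj => ?_⟩
    have h1 := Pool.Agent.W263.EP.trHk_bound f hodd (hS v hv) (2 * m - 1) j hj
    have h2 : ∀ i, traceH1 v (f i) j = Pool.Agent.H126T.traceH1 v (f i) 1 j := by
      intro i
      unfold traceH1 Pool.Agent.H126T.traceH1
      rw [map_one, affineCount_eq]
      rfl
    have h3 : traceH f m v j = (Pool.Agent.W263.EP.trHk v f (2 * m - 1) j : ℝ) := by
      unfold traceH Pool.Agent.W263.EP.trHk
      simp only [h2]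
      rfl
    have h4 : ((2 * m - 1 : ℕ) : ℝ) = 2 * (m : ℝ) - 1 := by
      rw [Nat.cast_sub (by omega)]; push_cast; ring
    rw [h3]
    rw [h4] at h1
    exact h1

end Pool.Agent.Results.MP_b8021b_nt.MeanSquareLaw
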