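import Pool.Agent.W76.BK.MotU
import Pool.Agent.W263.EP.Conc

/-!
# The mean of the Frobenius traces at the centre, unconditionally

`K` is a number field (`k` in the problem).  A system of real numbers `t v j` stands for the traces of
the `j`-th power of the geometric Frobenius at the finite place `v` on `H = H^w(X)`, `X` smooth
projective over `K` (`w = 2m - 1` in the problem); `S` is a finite set of places which contains the
places of bad reduction, and the Euler factors at the places of `S` are any inverse polynomials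
`B_v(Nv^{-s})⁻¹` without poles at the real points `s ≥ c`, where `c = (w+1)/2` is the centre (`c = m` in
the problem).  All that is used about the traces is the bound `|t v j| ≤ D Nv^{wj/2}`, which is
Deligne's theorem for all smooth projective `X`, with `D = dim H^w(X)`, and which Part B proves for all
cohomology groups of all products of curves `y² = f_j(x)`, `deg f_j` odd, over any number field.

`F` is any continuation of `L(H, s)` along the real half line `s ≥ c`, meromorphic at its points.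
NOTHING is assumed about zeros and poles, a functional equation, growth, or a continuation to complex
points.  For a real angle `γ` and `T > 0` put

`M_γ(T) = (1/T) ∑_{v ∉ S, j ≥ 1} t_v(j) log Nv · Nv^{-jc} · e^{iγ j log Nv / T} / Γ(1 + j log Nv / T)`,

an absolutely convergent series, the smoothed mean of the Frobenius traces at the centre (`T = log x`),
and let `V(a) = ∫_0^∞ e^{at} / Γ(1+t) dt` (Volterra's function of `e^a`).

* **An explicit formula in which only the real zeros and poles of `F` occur**: for every `γ`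
  `M_γ(T) = - ∑_{σ ≥ c real} ord_σ F · V((σ - c) T + iγ) + O(1/T)`.
* For every `γ > π/2`: `M_γ(T) = - n V(iγ) + O(1/T)`, `n = ord_{s=c} F`, without any hypothesis.
* If `π/2 < γ ≤ π`, then `Im V(iγ) = ∫_0^∞ sin(γt) / Γ(1+t) dt > 0`; so `ord_{s=c} L = r` if and only
  if `M_γ(T) → - r V(iγ)`.
* The angle `π/2` is sharp: if `0 ≤ γ < π/2` and `L(H, s)` has one real zero or pole `β > c`, then
  `|M_γ(T)| ≥ exp(exp(y T))` for all large `T`, for every `y < β - c`.

Hence part (ii) of the Beilinson-Bloch conjecture for `X` and `m` is equivalent to the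
statement that the smoothed mean of the Frobenius traces on `H^{2m-1}(X)` at `s = m`, divided by
`- V(iγ)`, tends to the rank of `CH^m_hom(X)`, whenever `L(V_ℓ, s)` has a continuation along the
real half line `s ≥ m`: an asymptotic law for the traces of Frobenius and nothing else.  For sharp
cut-offs (Birch and Swinnerton-Dyer, Goldfeld, Nagao) such a statement needs the Riemann hypothesis for
`L(H, s)` and more.

Idea: `e^{iγv}/Γ(1 + v) = (2πi)⁻¹ ∫ exp(e^z) e^{-(z - iγ)v} dz` along the boundary of a half strip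
`Re z ≥ a`, `|Im z| ≤ π`; so `T M_γ(T)` is the integral of `- (L'/L)(c + (z - iγ)/T)`, and in the scale
`(z - iγ)/T` this strip shrinks to the real line.  After the polar parts at the real zeros and poles
are removed, the integral is bounded; the polar part of a zero gives `V` exactly.  If `γ > π/2`, the
polar parts at the real points `σ > c` contribute `O(1/T)`.
-/

set_option autoImplicit false

namespace Pool.Agent.Results.MP_b8021b_nt.TraceLaw

open NumberField IsDedekindDomain Filter Topology Polynomial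

variable {K : Type} [Field K] [NumberField K]

/-- `|t_v(j)| ≤ D Nv^{wj/2}` for all `v ∉ S` and all `j ≥ 1`. -/
def WeightBound (t : HeightOneSpectrum (𝓞 K) → ℕ → ℝ) (w : ℕ)
    (S : Finset (HeightOneSpectrum (𝓞 K))) (D : ℝ) : Prop :=
  0 ≤ D ∧ ∀ v, v ∉ S → ∀ j : ℕ, 1 ≤ j →
    |t v j| ≤ D * (Ideal.absNorm v.asIdeal : ℝ) ^ ((w : ℝ) * j / 2)

open Classical in
/-- The Euler product `L(H, s)`.  At the places `v ∉ S` the factor is
`det(1 - Frob_v Nv^{-s} | H)⁻¹ = exp(∑_{j ≥ 1} t_v(j) Nv^{-js} / j)`; at the places of the finite set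
`S` it is `B_v(Nv^{-s})⁻¹`. -/
noncomputable def LFun (t : HeightOneSpectrum (𝓞 K) → ℕ → ℝ) (S : Finset (HeightOneSpectrum (𝓞 K)))
    (B : HeightOneSpectrum (𝓞 K) → ℂ[X]) (s : ℂ) : ℂ :=
  ∏' v : HeightOneSpectrum (𝓞 K),
    if v ∈ S then ((B v).eval (((Ideal.absNorm v.asIdeal : ℕ) : ℂ) ^ (-s)))⁻¹
    else Complex.exp (∑' m : ℕ, (t v (m + 1) : ℂ) *
      ((Ideal.absNorm v.asIdeal : ℕ) : ℂ) ^ (-((m + 1 : ℂ) * s)) / (m + 1))

/-- The centre `c = (w+1)/2`. -/
noncomputable def centre (w : ℕ) : ℝ := ((w : ℝ) + 1) / 2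

/-- `F` continues `L(H, s)` along the real half line `s ≥ c` and is meromorphic at its points. -/
def ContinuesAlongReals (t : HeightOneSpectrum (𝓞 K) → ℕ → ℝ) (w : ℕ)
    (S : Finset (HeightOneSpectrum (𝓞 K))) (B : HeightOneSpectrum (𝓞 K) → ℂ[X]) (F : ℂ → ℂ) : Prop :=
  (∀ s : ℝ, centre w ≤ s → MeromorphicAt F s) ∧
    ∀ s : ℝ, centre w + 1 / 2 < s → F s = LFun t S B s

open Classical in
/-- The term `t_v(j) log Nv · Nv^{-jc} · e^{iγ j log Nv / T} / Γ(1 + j log Nv / T)`, `x = (v, j - 1)`,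
`v ∉ S`. -/
noncomputable def traceTerm (t : HeightOneSpectrum (𝓞 K) → ℕ → ℝ) (w : ℕ)
    (S : Finset (HeightOneSpectrum (𝓞 K))) (γ T : ℝ) (x : HeightOneSpectrum (𝓞 K) × ℕ) : ℂ :=
  if x.1 ∈ S then 0 else
    ((t x.1 (x.2 + 1) * Real.log (Ideal.absNorm x.1.asIdeal : ℝ) *
      (Ideal.absNorm x.1.asIdeal : ℝ) ^ (-(((x.2 : ℝ) + 1) * centre w)) : ℝ) : ℂ) *
      Complex.exp (((γ * ((x.2 + 1) * Real.log (Ideal.absNorm x.1.asIdeal : ℝ) / T) : ℝ) : ℂ) *
        Complex.I) /
      ((Real.Gamma (1 + (x.2 + 1) * Real.log (Ideal.absNorm x.1.asIdeal : ℝ) / T) : ℝ) : ℂ)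

/-- The mean `M_γ(T)`: the sum of all these terms, divided by `T`. -/
noncomputable def traceMean (t : HeightOneSpectrum (𝓞 K) → ℕ → ℝ) (w : ℕ)
    (S : Finset (HeightOneSpectrum (𝓞 K))) (γ T : ℝ) : ℂ := (∑' x, traceTerm t w S γ T x) / T

/-- Volterra's function, `V(a) = ∫_0^∞ e^{at} / Γ(1+t) dt`. -/
noncomputable def volterra (a : ℂ) : ℂ :=
  ∫ t in Set.Ioi (0 : ℝ), Complex.exp (a * t) * (((Real.Gamma (1 + t))⁻¹ : ℝ) : ℂ)

/-! ### Products of curves -/

/-- Number of affine points of `y² = f(x)` with coordinates in the extension of degree `m` of the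
finite field `k`, that is, the field of the elements of the algebraic closure of `k` that are fixed
by the `m`-th power of the Frobenius of `k`. -/
noncomputable def affineCount (k : Type) [Field k] (f : k[X]) (m : ℕ) : ℕ :=
  Nat.card {P : AlgebraicClosure k × AlgebraicClosure k //
    P.1 ^ (Nat.card k ^ m) = P.1 ∧ P.2 ^ (Nat.card k ^ m) = P.2 ∧ P.2 ^ 2 = aeval P.1 f}

/-- Trace of the `m`-th power of the Frobenius at `v` on `H¹` of the smooth projective curve
`y² = f(x)`, `deg f` odd: it is `q^m + 1` minus the number of points over the field with `q^m`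
elements, and there is one point at infinity. -/
noncomputable def traceH1 (v : HeightOneSpectrum (𝓞 K)) (f : (𝓞 K)[X]) (m : ℕ) : ℤ :=
  haveI : v.asIdeal.IsMaximal := v.isMaximal
  letI : Field (𝓞 K ⧸ v.asIdeal) := Ideal.Quotient.field v.asIdeal
  (Ideal.absNorm v.asIdeal : ℤ) ^ m + 1 -
    (affineCount (𝓞 K ⧸ v.asIdeal) (f.map (Ideal.Quotient.mk v.asIdeal)) m + 1)

/-- Trace of the `m`-th power of the Frobenius at `v` on `H^k(X)`, `X` the product of the curves
`y² = f_j(x)`: by the Künneth formula it is the coefficient of `T^k` in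
`∏_j (1 + Tr(Frob^m | H¹(C_j)) T + q^m T²)`. -/
noncomputable def traceH {n : ℕ} (f : Fin n → (𝓞 K)[X]) (k : ℕ) (v : HeightOneSpectrum (𝓞 K))
    (m : ℕ) : ℝ :=
  (((∏ j, (1 + C (traceH1 v (f j) m) * X + C ((Ideal.absNorm v.asIdeal : ℤ) ^ m) * X ^ 2)).coeff k
    : ℤ) : ℝ)

/-- The dimension of `H^k(X)`: the coefficient of `T^k` in `∏_j (1 + 2g_j T + T²)`,
`2g_j = deg f_j - 1`. -/
noncomputable def bettiNumber {n : ℕ} (f : Fin n → (𝓞 K)[X]) (k : ℕ) : ℕ :=
  (∏ j, (1 + C ((f j).natDegree - 1) * X + X ^ 2 : ℕ[X])).coeff k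

theorem affineCount_eq (k : Type) [Field k] (f : k[X]) (m : ℕ) :
    affineCount k f m = Pool.Agent.H126T.affPts k f 1 m := by
  unfold affineCount Pool.Agent.H126T.affPts
  simp only [map_one, one_mul]

/-- **The mean of the Frobenius traces at the centre.**

Part A.  Let `t` be a system of Frobenius traces of weight `w` over a number field `K`, as above, with
centre `c = (w+1)/2`, let `B_v`, `v ∈ S`, be polynomials with `B_v(Nv^{-s}) ≠ 0` for real `s ≥ c`, and
let `F` be any continuation of `L(H, s)` along the real half line `s ≥ c`, meromorphic at its points.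
Then, unconditionally:

1. the series for `M_γ(T)` converges absolutely, for all `γ` and all `T > 0`;
2. `F` has an order `n ∈ ℤ` at `c`, and the set `Z` of the real zeros and poles `σ > c` of `F` is
finite; let `k_σ` be the order of `F` at `σ`, negative at a pole;
3. for every `γ`: `M_γ(T) = - n V(iγ) - ∑_{σ ∈ Z} k_σ V((σ - c) T + iγ) + O(1/T)`;
4. for every `γ > π/2`: `M_γ(T) = - n V(iγ) + O(1/T)`;
5. for every `π/2 < γ ≤ π`: `Im V(iγ) > 0`, and, for every integer `r`, `ord_c F = r` iff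
`M_γ(T) → - r V(iγ)`;
6. for every `0 ≤ γ < π/2`: if `β > c` is a zero or a pole of `F`, then for every `y < β - c` one has
`|M_γ(T)| ≥ exp(exp(y T))` for all large `T`.

Part B.  The bound assumed in Part A holds for `H^k(X)`, all `k`, with `w = k` and `D = dim H^k(X)`, if
`X` is a product of curves `y² = f_j(x)` over `K`, `deg f_j` odd, and `S` contains the places which
divide `2` or the leading coefficient of an `f_j`. -/
theorem result :
    (∀ (K : Type) [Field K] [NumberField K] (t : HeightOneSpectrum (𝓞 K) → ℕ → ℝ) (w : ℕ)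
      (S : Finset (HeightOneSpectrum (𝓞 K))) (D : ℝ) (_ : WeightBound t w S D)
      (B : HeightOneSpectrum (𝓞 K) → ℂ[X])
      (_ : ∀ v ∈ S, ∀ s : ℝ, centre w ≤ s →
        (B v).eval (((Ideal.absNorm v.asIdeal : ℕ) : ℂ) ^ (-(s : ℂ))) ≠ 0)
      (F : ℂ → ℂ) (_ : ContinuesAlongReals t w S B F),
      (∀ γ T : ℝ, 0 < T → Summable fun x => ‖traceTerm t w S γ T x‖) ∧
      ∃ (n : ℤ) (Z : Finset ℝ) (k : ℝ → ℤ),
        meromorphicOrderAt F (centre w) = n ∧
        (∀ σ : ℝ, σ ∈ Z ↔ centre w < σ ∧ meromorphicOrderAt F (σ : ℂ) ≠ 0) ∧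
        (∀ σ ∈ Z, meromorphicOrderAt F (σ : ℂ) = k σ) ∧
        (∀ γ : ℝ, ∃ C T₀ : ℝ, ∀ T ≥ T₀, ‖traceMean t w S γ T +
          (n * volterra (γ * Complex.I) + ∑ σ ∈ Z, (k σ : ℂ) *
            volterra (((σ - centre w) * T : ℝ) + γ * Complex.I))‖ ≤ C / T) ∧
        (∀ γ : ℝ, Real.pi / 2 < γ → ∃ C T₀ : ℝ, ∀ T ≥ T₀,
          ‖traceMean t w S γ T + n * volterra (γ * Complex.I)‖ ≤ C / T) ∧
        (∀ γ : ℝ, Real.pi / 2 < γ → γ ≤ Real.pi → 0 < (volterra (γ * Complex.I)).im ∧ ∀ r : ℤ,
          meromorphicOrderAt F (centre w) = r ↔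
            Tendsto (fun T : ℝ => traceMean t w S γ T) atTop
              (𝓝 (-(r * volterra (γ * Complex.I))))) ∧
        ∀ γ : ℝ, 0 ≤ γ → γ < Real.pi / 2 → ∀ β : ℝ, centre w < β →
          meromorphicOrderAt F (β : ℂ) ≠ 0 → ∀ y : ℝ, y < β - centre w →
          ∀ᶠ T : ℝ in atTop, Real.exp (Real.exp (y * T)) ≤ ‖traceMean t w S γ T‖) ∧
    (∀ (K : Type) [Field K] [NumberField K] (n : ℕ) (f : Fin n → (𝓞 K)[X])
      (_ : ∀ j, Odd (f j).natDegree) (S : Finset (HeightOneSpectrum (𝓞 K)))
      (_ : ∀ v, v ∉ S → ∀ j, 2 * (f j).leadingCoeff ∉ v.asIdeal) (k : ℕ),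
      WeightBound (traceH f k) k S (bettiNumber f k)) := by
  refine ⟨?_, ?_⟩
  · intro K _ _ t w S D ht B hB F hF
    have E : Pool.Agent.W263.EP.TData (Pool.Agent.H341R2.sysK K)
        (Pool.Agent.W263.EP.tn (Pool.Agent.H341R2.sysK K)
          (S : Set (HeightOneSpectrum (𝓞 K))) t (w : ℝ)) D :=
      Pool.Agent.W263.EP.tdata ht.1 fun v hv m hm => ht.2 v hv m hm
    have hT : ∀ γ T x, traceTerm t w S γ T x =
        Pool.Agent.W76.BK.MotU.trTerm (Pool.Agent.H341R2.sysK K) S t (w : ℝ) γ T x :=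
      fun γ T x => rfl
    have hS : ∀ γ T, traceMean t w S γ T =
        Pool.Agent.W76.BK.MotU.trMean (Pool.Agent.H341R2.sysK K) S t (w : ℝ) γ T :=
      fun γ T => rfl
    have hV : ∀ a, volterra a = Pool.Agent.W187.UR.NU a := fun a => rfl
    have hF2 : ∀ s : ℝ, ((w : ℝ) + 2) / 2 < s →
        F s = Pool.Agent.W263.EP.LFB (Pool.Agent.H341R2.sysK K) S B t s := by
      intro s hs
      have h1 : centre w + 1 / 2 < s := by
        unfold centre
        linarith
      exact hF.2 s h1
    obtain ⟨n, Z, k, h1, h2, h3, h4, h5, h6, h7⟩ :=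
      Pool.Agent.W76.BK.MotU.motive_tr (S := Pool.Agent.H341R2.sysK K) (Bs := S) (B := B)
        (tr := t) (ω := (w : ℝ)) E hB hF.1 hF2
    exact ⟨fun γ T hT' => Pool.Agent.W76.BK.MotU.trTerm_summable
      (S := Pool.Agent.H341R2.sysK K) (Bs := S) (tr := t) (ω := (w : ℝ)) E γ hT',
      n, Z, k, h1, h2, h3, h4, h5, fun γ hγ hγ2 =>
        ⟨Pool.Agent.W76.BK.MotT.NU_im_pos (by linarith [Real.pi_pos]) hγ2, h6 γ hγ hγ2⟩, h7⟩
  · intro K _ _ n f hodd S hS k
    refine ⟨by positivity, fun v hv m hm => ?_⟩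
    have h1 := Pool.Agent.W263.EP.trHk_bound f hodd (hS v hv) k m hm
    have h2 : ∀ j, traceH1 v (f j) m = Pool.Agent.H126T.traceH1 v (f j) 1 m := by
      intro j
      unfold traceH1 Pool.Agent.H126T.traceH1
      rw [map_one, affineCount_eq]
      rfl
    have h3 : traceH f k v m = (Pool.Agent.W263.EP.trHk v f k m : ℝ) := by
      unfold traceH Pool.Agent.W263.EP.trHk
      simp only [h2]
      rfl
    rw [h3]
    exact h1

end Pool.Agent.Results.MP_b8021b_nt.TraceLaw
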