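import Pool.Agent.W263.MN.Main
import Pool.Agent.W263.EP.Conc

/-!
# The order of `L(H^{2m-1}(X), s)` at `s = m` and means of Frobenius traces

`K` is a number field.  A system of real numbers `t v j` stands for the traces of the `j`-th power of
the geometric Frobenius at the finite place `v` on `H = H^{2m-1}(X)`, `S` is a finite set of places
which contains all places of bad reduction, and the Euler factors at the places of `S` are arbitrary
inverse polynomials `B_v(Nv^{-s})⁻¹` without poles for `Re s ≥ m`.  All that is used about the traces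
is the bound `|t v j| ≤ D Nv^{(2m-1)j/2}`, which is Deligne's theorem for all smooth projective `X`,
with `D = dim H^{2m-1}(X)`, and which Part E proves for all products of curves `y² = f_j(x)`,
`deg f_j` odd, over any number field.  The means are

  `A_k(x) = ∑_{Nv ≤ x} (1 - log Nv / log x)^k t_v(1) log Nv / Nv^m`,
  `Ψ_k(x) = ∑_{Nv^j ≤ x} (1 - log Nv^j / log x)^k t_v(j) log Nv / Nv^{jm}`.

For `m = 1` and an elliptic curve over `ℚ`, `A_0(x)` is the sum of Mestre and Nagao.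
-/

set_option autoImplicit false

namespace Pool.Agent.Results.MP_b8021b_nt.TraceMeans

open NumberField IsDedekindDomain Filter Topology Polynomial
open Pool.Agent.W263.MN (ZK SK LOrd LDB)

variable {K : Type} [Field K] [NumberField K]

/-- `|t_v(j)| ≤ D Nv^{(2m-1)j/2}` for all `v ∉ S` and all `j ≥ 1`. -/
def WeightBound (t : HeightOneSpectrum (𝓞 K) → ℕ → ℝ) (m : ℕ)
    (S : Finset (HeightOneSpectrum (𝓞 K))) (D : ℝ) : Prop :=
  0 ≤ D ∧ ∀ v, v ∉ S → ∀ j : ℕ, 1 ≤ j →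
    |t v j| ≤ D * (Ideal.absNorm v.asIdeal : ℝ) ^ ((2 * (m : ℝ) - 1) * j / 2)

open Classical in
/-- The Euler product `L(H, s)`.  At the places `v ∉ S` the factor is
`det(1 - Frob_v Nv^{-s} | H)⁻¹ = exp(∑_{j ≥ 1} t_v(j) Nv^{-js} / j)`; at the places of the finite set
`S` it is `B_v(Nv^{-s})⁻¹`. -/
noncomputable def LFun (t : HeightOneSpectrum (𝓞 K) → ℕ → ℝ) (S : Finset (HeightOneSpectrum (𝓞 K)))
    (B : HeightOneSpectrum (𝓞 K) → ℂ[X]) (s : ℂ) : ℂ :=
  ∏' v : HeightOneSpectrum (𝓞 K),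
    if v ∈ S then ((B v).eval (((Ideal.absNorm v.asIdeal : ℕ) : ℂ) ^ (-s)))⁻¹
    else Complex.exp (∑' j : ℕ, (t v (j + 1) : ℂ) *
      ((Ideal.absNorm v.asIdeal : ℕ) : ℂ) ^ (-((j + 1 : ℂ) * s)) / (j + 1))

/-- The Euler factors at the places of `S` have no poles for `Re s ≥ m`. -/
def BadFactors (m : ℕ) (S : Finset (HeightOneSpectrum (𝓞 K)))
    (B : HeightOneSpectrum (𝓞 K) → ℂ[X]) : Prop :=
  ∀ v ∈ S, ∀ s : ℂ, (m : ℝ) ≤ s.re → (B v).eval (((Ideal.absNorm v.asIdeal : ℕ) : ℂ) ^ (-s)) ≠ 0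

/-- `A_k(x) = ∑_{v ∉ S, Nv ≤ x} (1 - log Nv / log x)^k t_v(1) log Nv / Nv^m`. -/
noncomputable def traceMean (t : HeightOneSpectrum (𝓞 K) → ℕ → ℝ) (m : ℕ)
    (S : Finset (HeightOneSpectrum (𝓞 K))) (k : ℕ) (x : ℝ) : ℝ :=
  ∑ᶠ v ∈ {v : HeightOneSpectrum (𝓞 K) | v ∉ S ∧ (Ideal.absNorm v.asIdeal : ℝ) ≤ x},
    (1 - Real.log (Ideal.absNorm v.asIdeal) / Real.log x) ^ k *
      (t v 1 * Real.log (Ideal.absNorm v.asIdeal) / (Ideal.absNorm v.asIdeal : ℝ) ^ m)

/-- `Ψ_k(x) = ∑_{v ∉ S, j ≥ 1, Nv^j ≤ x} (1 - log Nv^j / log x)^k t_v(j) log Nv / Nv^{jm}`. -/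
noncomputable def powerMean (t : HeightOneSpectrum (𝓞 K) → ℕ → ℝ) (m : ℕ)
    (S : Finset (HeightOneSpectrum (𝓞 K))) (k : ℕ) (x : ℝ) : ℝ :=
  ∑ᶠ q ∈ {q : HeightOneSpectrum (𝓞 K) × ℕ |
      q.1 ∉ S ∧ 1 ≤ q.2 ∧ (Ideal.absNorm q.1.asIdeal : ℝ) ^ q.2 ≤ x},
    (1 - Real.log ((Ideal.absNorm q.1.asIdeal : ℝ) ^ q.2) / Real.log x) ^ k *
      (t q.1 q.2 * Real.log (Ideal.absNorm q.1.asIdeal) /
        (Ideal.absNorm q.1.asIdeal : ℝ) ^ (q.2 * m))

/-- `F` is an analytic continuation of `L(H, s)` to a neighbourhood of the real half line `s > m`. -/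
def ContinuesAlongReals (t : HeightOneSpectrum (𝓞 K) → ℕ → ℝ) (m : ℕ)
    (S : Finset (HeightOneSpectrum (𝓞 K))) (B : HeightOneSpectrum (𝓞 K) → ℂ[X]) (F : ℂ → ℂ) : Prop :=
  (∀ s : ℝ, (m : ℝ) < s → AnalyticAt ℂ F s) ∧ ∀ s : ℝ, (m : ℝ) + 1 / 2 < s → F s = LFun t S B s

/-- `F` is an analytic continuation of `L(H, s)` to the half plane `Re s > m`. -/
def ContinuesToHalfPlane (t : HeightOneSpectrum (𝓞 K) → ℕ → ℝ) (m : ℕ)
    (S : Finset (HeightOneSpectrum (𝓞 K))) (B : HeightOneSpectrum (𝓞 K) → ℂ[X]) (F : ℂ → ℂ) : Prop :=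
  DifferentiableOn ℂ F {s : ℂ | (m : ℝ) < s.re} ∧
    ∀ s : ℂ, (m : ℝ) + 1 / 2 < s.re → F s = LFun t S B s

/-- `F` has the order `ρ` at `s = m`: it has no zeros near `m` on the right, and
`(s - m) F'(s) / F(s) → ρ` as `s → m⁺`. -/
def HasOrder (m : ℕ) (F : ℂ → ℂ) (ρ : ℝ) : Prop :=
  (∀ᶠ s : ℝ in 𝓝[>] (m : ℝ), F s ≠ 0) ∧
    Tendsto (fun s : ℝ => ((s : ℂ) - m) * (deriv F s / F s)) (𝓝[>] (m : ℝ)) (𝓝 (ρ : ℂ))

/-- `F'/F` grows at most polynomially in `|s|` and `1/(Re s - m)` in the strip `m < Re s ≤ m + 1`. -/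
def LogDerivBound (m : ℕ) (F : ℂ → ℂ) : Prop :=
  ∃ (C : ℝ) (A : ℕ), ∀ s : ℂ, (m : ℝ) < s.re → s.re ≤ m + 1 →
    ‖deriv F s / F s‖ ≤ C * ((1 + ‖s‖) / (s.re - m)) ^ A

/-! ### Products of curves -/

/-- Number of affine points of `y² = f(x)` with coordinates in the extension of degree `j` of the
finite field `k`, that is, the field of the elements of the algebraic closure of `k` that are fixed
by the `j`-th power of the Frobenius of `k`. -/
noncomputable def affineCount (k : Type) [Field k] (f : k[X]) (j : ℕ) : ℕ :=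
  Nat.card {P : AlgebraicClosure k × AlgebraicClosure k //
    P.1 ^ (Nat.card k ^ j) = P.1 ∧ P.2 ^ (Nat.card k ^ j) = P.2 ∧ P.2 ^ 2 = aeval P.1 f}

/-- Trace of the `j`-th power of the Frobenius at `v` on `H¹` of the smooth projective curve
`y² = f(x)`, `deg f` odd: it is `q^j + 1` minus the number of points over the field with `q^j`
elements, and there is one point at infinity. -/
noncomputable def traceH1 (v : HeightOneSpectrum (𝓞 K)) (f : (𝓞 K)[X]) (j : ℕ) : ℤ :=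
  haveI : v.asIdeal.IsMaximal := v.isMaximal
  letI : Field (𝓞 K ⧸ v.asIdeal) := Ideal.Quotient.field v.asIdeal
  (Ideal.absNorm v.asIdeal : ℤ) ^ j + 1 -
    (affineCount (𝓞 K ⧸ v.asIdeal) (f.map (Ideal.Quotient.mk v.asIdeal)) j + 1)

/-- Trace of the `j`-th power of the Frobenius at `v` on `H^{2m-1}(X)`, `X` the product of the curves
`y² = f_i(x)`: by the Künneth formula it is the coefficient of `T^{2m-1}` in
`∏_i (1 + Tr(Frob^j | H¹(C_i)) T + q^j T²)`, `q = Nv`. -/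
noncomputable def traceH {n : ℕ} (f : Fin n → (𝓞 K)[X]) (m : ℕ) (v : HeightOneSpectrum (𝓞 K))
    (j : ℕ) : ℝ :=
  (((∏ i, (1 + C (traceH1 v (f i) j) * X + C ((Ideal.absNorm v.asIdeal : ℤ) ^ j) * X ^ 2)).coeff
    (2 * m - 1) : ℤ) : ℝ)

/-- The dimension of `H^{2m-1}(X)`: the coefficient of `T^{2m-1}` in `∏_i (1 + 2g_i T + T²)`,
`2g_i = deg f_i - 1`. -/
noncomputable def bettiNumber {n : ℕ} (f : Fin n → (𝓞 K)[X]) (m : ℕ) : ℕ :=
  (∏ i, (1 + C ((f i).natDegree - 1) * X + X ^ 2 : ℕ[X])).coeff (2 * m - 1)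

/-! ### Conversion to the general setting -/

theorem affineCount_eq (k : Type) [Field k] (f : k[X]) (m : ℕ) :
    affineCount k f m = Pool.Agent.H126T.affPts k f 1 m := by
  unfold affineCount Pool.Agent.H126T.affPts
  simp only [map_one, one_mul]

theorem cen (m : ℕ) : ((2 * (m : ℝ) - 1) + 1) / 2 = m := by ring

theorem cen2 (m : ℕ) : ((2 * (m : ℝ) - 1) + 2) / 2 = (m : ℝ) + 1 / 2 := by ring

theorem norm_ge_two (v : HeightOneSpectrum (𝓞 K)) : (2 : ℝ) ≤ (Ideal.absNorm v.asIdeal : ℝ) :=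
  Pool.Agent.W263.EP.N_real_two (S := Pool.Agent.H341R2.sysK K) v

theorem SK_eq (t : HeightOneSpectrum (𝓞 K) → ℕ → ℝ) (m : ℕ)
    (S : Finset (Pool.Agent.H341R2.sysK K).X) (k : ℕ) (x : ℝ) :
    SK (Pool.Agent.H341R2.sysK K) (S : Set (Pool.Agent.H341R2.sysK K).X) t (2 * (m : ℝ) - 1) k x =
      traceMean t m S k x := by
  unfold SK traceMean
  refine finsum_mem_congr rfl fun (v : HeightOneSpectrum (𝓞 K)) _ => ?_
  have e : ((Pool.Agent.H341R2.sysK K).N v : ℝ) = (Ideal.absNorm v.asIdeal : ℝ) := rfl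
  rw [e, cen m, Real.rpow_neg (by positivity), Real.rpow_natCast]
  rfl

theorem ZK_eq (t : HeightOneSpectrum (𝓞 K) → ℕ → ℝ) (m : ℕ)
    (S : Finset (Pool.Agent.H341R2.sysK K).X) (k : ℕ) (x : ℝ) :
    ZK (Pool.Agent.H341R2.sysK K) (S : Set (Pool.Agent.H341R2.sysK K).X) t (2 * (m : ℝ) - 1) k x =
      powerMean t m S k x := by
  unfold ZK powerMean
  refine finsum_mem_eq_of_bijOn (fun p => (p.1, p.2 + 1)) ⟨?_, ?_, ?_⟩ ?_
  · rintro ⟨v, j⟩ ⟨h1, h2⟩
    exact ⟨h1, by simp, h2⟩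
  · rintro ⟨v, j⟩ _ ⟨v', j'⟩ _ h
    have h1 := (Prod.ext_iff.mp h).1
    have h2 := (Prod.ext_iff.mp h).2
    simp only [Nat.add_right_cancel_iff] at h1 h2
    exact Prod.ext h1 h2
  · rintro ⟨v, j⟩ ⟨h1, h2, h3⟩
    simp only at h1 h2 h3
    obtain ⟨i, rfl⟩ : ∃ i, j = i + 1 := ⟨j - 1, by omega⟩
    exact ⟨(v, i), ⟨h1, h3⟩, rfl⟩
  · rintro ⟨v, j⟩ _
    have hN : (0 : ℝ) < (Ideal.absNorm v.asIdeal : ℝ) := by linarith [norm_ge_two v]
    have e : ((Pool.Agent.H341R2.sysK K).N v : ℝ) = (Ideal.absNorm v.asIdeal : ℝ) := rfl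
    simp only []
    have e2 : (-(((j : ℝ) + 1) * (((2 * (m : ℝ) - 1) + 1) / 2))) = -(((j + 1) * m : ℕ) : ℝ) := by
      rw [cen m]; push_cast; ring
    rw [e, e2, Real.rpow_neg hN.le, Real.rpow_natCast, Real.log_pow, div_eq_mul_inv]
    push_cast
    rfl

theorem tdata {t : HeightOneSpectrum (𝓞 K) → ℕ → ℝ} {m : ℕ}
    {S : Finset (HeightOneSpectrum (𝓞 K))} {D : ℝ} (ht : WeightBound t m S D) :
    Pool.Agent.W263.EP.TData (Pool.Agent.H341R2.sysK K)
      (Pool.Agent.W263.EP.tn (Pool.Agent.H341R2.sysK K)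
        (S : Set (HeightOneSpectrum (𝓞 K))) t (2 * (m : ℝ) - 1)) D :=
  Pool.Agent.W263.EP.tdata ht.1 fun v hv j hj => ht.2 v hv j hj

theorem bigO_lower {f g : ℝ → ℝ} (h : ∃ C : ℝ, ∀ᶠ x : ℝ in atTop, |f x - g x| ≤ C * Real.log x)
    (hf : ∃ C : ℝ, ∀ᶠ x : ℝ in atTop, -(C * Real.log x) ≤ f x) :
    ∃ C : ℝ, ∀ᶠ x : ℝ in atTop, -(C * Real.log x) ≤ g x := by
  obtain ⟨C, hC⟩ := h
  obtain ⟨C', hC'⟩ := hf
  refine ⟨C' + C, ?_⟩
  filter_upwards [hC, hC'] with x h1 h2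
  have := (abs_le.mp h1).2
  linarith

theorem bigO_upper {f g : ℝ → ℝ} (h : ∃ C : ℝ, ∀ᶠ x : ℝ in atTop, |f x - g x| ≤ C * Real.log x)
    (hf : ∃ C : ℝ, ∀ᶠ x : ℝ in atTop, f x ≤ C * Real.log x) :
    ∃ C : ℝ, ∀ᶠ x : ℝ in atTop, g x ≤ C * Real.log x := by
  obtain ⟨C, hC⟩ := h
  obtain ⟨C', hC'⟩ := hf
  refine ⟨C' + C, ?_⟩
  filter_upwards [hC, hC'] with x h1 h2
  have := (abs_le.mp h1).1
  linarith

theorem bigO_abs {f g : ℝ → ℝ} (h : ∃ C : ℝ, ∀ᶠ x : ℝ in atTop, |f x - g x| ≤ C * Real.log x)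
    (hf : ∃ C : ℝ, ∀ᶠ x : ℝ in atTop, |f x| ≤ C * Real.log x) :
    ∃ C : ℝ, ∀ᶠ x : ℝ in atTop, |g x| ≤ C * Real.log x := by
  obtain ⟨C, hC⟩ := h
  obtain ⟨C', hC'⟩ := hf
  refine ⟨C' + C, ?_⟩
  filter_upwards [hC, hC'] with x h1 h2
  rw [abs_le] at h1 h2 ⊢
  constructor <;> linarith

theorem bigO_symm {f g : ℝ → ℝ} (h : ∃ C : ℝ, ∀ᶠ x : ℝ in atTop, |f x - g x| ≤ C * Real.log x) :
    ∃ C : ℝ, ∀ᶠ x : ℝ in atTop, |g x - f x| ≤ C * Real.log x := by
  obtain ⟨C, hC⟩ := h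
  exact ⟨C, hC.mono fun x hx => by rwa [abs_sub_comm]⟩

/-- **The order at `s = m`, the Riemann hypothesis and means of Frobenius traces.**

Let `t` be a system of Frobenius traces of weight `2m - 1` over a number field `K`, as above.

Part A.  No continuation is assumed; let `ρ` be a real number.  The following are equivalent.
1. `Ψ_k(x) / log x → -ρ / (k+1)` for some `k`.
2. `L(H, s)` has an analytic continuation to a neighbourhood of the real half line `s > m`, of order `ρ`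
at `s = m`, and `A_k(x) ≥ -C log x` for some `k`, `C` and all large `x`.
3. `L(H, s)` has an analytic continuation to a neighbourhood of the real half line `s > m`, of order `ρ`
at `s = m` and without real zeros `s > m`, and `A_k(x) ≤ C log x` for some `k`, `C` and all large `x`.
4. `L(H, s)` has an analytic continuation to the half plane `Re s > m`, without zeros, of order `ρ` at
`s = m`, and `|A_k(x)| ≤ C log x` for some `k`, `C` and all large `x`.

Part B.  Let `F` be an analytic continuation to a neighbourhood of the real half line `s > m` which is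
meromorphic at `s = m`, of order `n`.  Then `(s-m) F'/F → n`, and the following are equivalent.
1. `A_k(x) ≥ -C log x` for some `k`, `C` and all large `x`.
2. `F` has no real zeros `s > m`, and `A_k(x) ≤ C log x` for some `k`, `C` and all large `x`.
3. `Ψ_k(x) / log x → -n / (k+1)` for some `k`.
4. `Ψ_k(x) = -(n / (k+1)) log x + O(1)` for some `k`.
5. `L(H, s)` has an analytic continuation `G` to the half plane `Re s > m`, without zeros, and `G'/G`
grows at most polynomially in `|s|` and `1 / (Re s - m)` for `m < Re s ≤ m + 1`.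

Part C.  Let `F` be an analytic continuation to the half plane `Re s > m` which grows at most
polynomially there and is meromorphic at `s = m`, of order `n`.  The following are equivalent.
1. `F(s) ≠ 0` for `Re s > m`.
2. `|A_1(x)| ≤ C log x` for all large `x`.
3. `A_1(x) ≥ -C log x` for all large `x`.
4. `Ψ_2(x) = -(n/3) log x + O(1)`.

Part D.  Let `F` be an analytic continuation to a neighbourhood of the real half line `s > m`, of order
`ρ` at `s = m`.  For all `k` and all `σ < ρ` there are arbitrarily large `x` with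
`Ψ_k(x) < -(σ / (k+1)) log x`; and if `F` has no real zeros `s > m`, then for all `k` and all `σ > ρ`
there are arbitrarily large `x` with `Ψ_k(x) > -(σ / (k+1)) log x`.

Part E.  The assumption on the traces holds for `H^{2m-1}(X)` with `D = dim H^{2m-1}(X)`, if `X` is a
product of curves `y² = f_i(x)` over `K`, `deg f_i` odd, and `S` contains the places which divide `2`
or the leading coefficient of an `f_i`. -/
theorem result :
    (∀ (K : Type) [Field K] [NumberField K] (t : HeightOneSpectrum (𝓞 K) → ℕ → ℝ) (m : ℕ)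
      (S : Finset (HeightOneSpectrum (𝓞 K))) (D : ℝ) (_ : WeightBound t m S D)
      (B : HeightOneSpectrum (𝓞 K) → ℂ[X]) (_ : BadFactors m S B),
      (∀ ρ : ℝ, List.TFAE [
        ∃ k : ℕ, Tendsto (fun x : ℝ => powerMean t m S k x / Real.log x) atTop
          (𝓝 (-ρ / (k + 1))),
        (∃ F : ℂ → ℂ, ContinuesAlongReals t m S B F ∧ HasOrder m F ρ) ∧
          ∃ (k : ℕ) (C : ℝ), ∀ᶠ x : ℝ in atTop, -(C * Real.log x) ≤ traceMean t m S k x,
        (∃ F : ℂ → ℂ, ContinuesAlongReals t m S B F ∧ HasOrder m F ρ ∧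
          ∀ s : ℝ, (m : ℝ) < s → F s ≠ 0) ∧
          ∃ (k : ℕ) (C : ℝ), ∀ᶠ x : ℝ in atTop, traceMean t m S k x ≤ C * Real.log x,
        (∃ F : ℂ → ℂ, ContinuesToHalfPlane t m S B F ∧ (∀ s : ℂ, (m : ℝ) < s.re → F s ≠ 0) ∧
          HasOrder m F ρ) ∧
          ∃ (k : ℕ) (C : ℝ), ∀ᶠ x : ℝ in atTop, |traceMean t m S k x| ≤ C * Real.log x]) ∧
      (∀ (F : ℂ → ℂ) (n : ℤ) (_ : ContinuesAlongReals t m S B F) (_ : MeromorphicAt F m)
        (_ : meromorphicOrderAt F m = n),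
        HasOrder m F n ∧
        List.TFAE [
          ∃ (k : ℕ) (C : ℝ), ∀ᶠ x : ℝ in atTop, -(C * Real.log x) ≤ traceMean t m S k x,
          (∀ s : ℝ, (m : ℝ) < s → F s ≠ 0) ∧
            ∃ (k : ℕ) (C : ℝ), ∀ᶠ x : ℝ in atTop, traceMean t m S k x ≤ C * Real.log x,
          ∃ k : ℕ, Tendsto (fun x : ℝ => powerMean t m S k x / Real.log x) atTop
            (𝓝 (-(n : ℝ) / (k + 1))),
          ∃ (k : ℕ) (C : ℝ), ∀ᶠ x : ℝ in atTop,
            |powerMean t m S k x + n / (k + 1) * Real.log x| ≤ C,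
          ∃ G : ℂ → ℂ, ContinuesToHalfPlane t m S B G ∧ (∀ s : ℂ, (m : ℝ) < s.re → G s ≠ 0) ∧
            LogDerivBound m G]) ∧
      (∀ (F : ℂ → ℂ) (n : ℤ) (_ : ContinuesToHalfPlane t m S B F) (_ : MeromorphicAt F m)
        (_ : meromorphicOrderAt F m = n)
        (_ : ∃ (C : ℝ) (A : ℕ), ∀ s : ℂ, (m : ℝ) < s.re → ‖F s‖ ≤ C * (1 + ‖s‖) ^ A),
        List.TFAE [
          ∀ s : ℂ, (m : ℝ) < s.re → F s ≠ 0,
          ∃ C : ℝ, ∀ᶠ x : ℝ in atTop, |traceMean t m S 1 x| ≤ C * Real.log x,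
          ∃ C : ℝ, ∀ᶠ x : ℝ in atTop, -(C * Real.log x) ≤ traceMean t m S 1 x,
          ∃ C : ℝ, ∀ᶠ x : ℝ in atTop, |powerMean t m S 2 x + n / 3 * Real.log x| ≤ C]) ∧
      (∀ (F : ℂ → ℂ) (ρ : ℝ) (_ : ContinuesAlongReals t m S B F) (_ : HasOrder m F ρ) (k : ℕ)
        (σ : ℝ),
        (σ < ρ → ∃ᶠ x : ℝ in atTop, powerMean t m S k x < -(σ / (k + 1) * Real.log x)) ∧
        (ρ < σ → (∀ s : ℝ, (m : ℝ) < s → F s ≠ 0) →
          ∃ᶠ x : ℝ in atTop, -(σ / (k + 1) * Real.log x) < powerMean t m S k x))) ∧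
    (∀ (K : Type) [Field K] [NumberField K] (n : ℕ) (f : Fin n → (𝓞 K)[X])
      (_ : ∀ i, Odd (f i).natDegree) (S : Finset (HeightOneSpectrum (𝓞 K)))
      (_ : ∀ v, v ∉ S → ∀ i, 2 * (f i).leadingCoeff ∉ v.asIdeal) (m : ℕ) (_ : 1 ≤ m),
      WeightBound (traceH f m) m S (bettiNumber f m)) := by
  refine ⟨?_, ?_⟩
  · intro K _ _ t m S D ht B hB
    have E := tdata ht
    have hB' : ∀ x ∈ S, ∀ s : ℂ, ((2 * (m : ℝ) - 1) + 1) / 2 ≤ s.re →
        (B x).eval ((((Pool.Agent.H341R2.sysK K).N x : ℕ) : ℂ) ^ (-s)) ≠ 0 := by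
      intro x hx s hs
      rw [cen] at hs
      exact hB x hx s hs
    have hL : ∀ s, Pool.Agent.W263.EP.LFB (Pool.Agent.H341R2.sysK K) S B t s = LFun t S B s :=
      fun s => rfl
    have hCont : ∀ F : ℂ → ℂ, Pool.Agent.W263.EP.IsContB (Pool.Agent.H341R2.sysK K) S B t
        (2 * (m : ℝ) - 1) F ↔ ContinuesAlongReals t m S B F := by
      intro F
      unfold Pool.Agent.W263.EP.IsContB ContinuesAlongReals
      rw [cen, cen2]
      simp only [hL]
    have hFull : ∀ F : ℂ → ℂ, Pool.Agent.W263.EP.IsFullB (Pool.Agent.H341R2.sysK K) S B t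
        (2 * (m : ℝ) - 1) F ↔ ContinuesToHalfPlane t m S B F ∧
          ∀ s : ℂ, (m : ℝ) < s.re → F s ≠ 0 := by
      intro F
      unfold Pool.Agent.W263.EP.IsFullB ContinuesToHalfPlane
      rw [cen, cen2]
      simp only [hL]
      tauto
    have hOrd : ∀ (F : ℂ → ℂ) (ρ : ℝ), LOrd (((2 * (m : ℝ) - 1) + 1) / 2) F ρ ↔ HasOrder m F ρ := by
      intro F ρ
      unfold LOrd HasOrder
      rw [cen]
      simp only [Complex.ofReal_natCast]
    have hLD : ∀ G : ℂ → ℂ, LDB (((2 * (m : ℝ) - 1) + 1) / 2) G ↔ LogDerivBound m G := by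
      intro G
      unfold LDB LogDerivBound
      rw [cen]
    have hZ := ZK_eq t m S
    have hS := SK_eq t m S
    have hSZ : ∀ k, ∃ C : ℝ, ∀ᶠ x : ℝ in atTop,
        |powerMean t m S k x - traceMean t m S k x| ≤ C * Real.log x := by
      intro k
      obtain ⟨C, hC⟩ := Pool.Agent.W263.MN.SK_ZK E k
      refine ⟨C, hC.mono fun x hx => ?_⟩
      rw [← hZ k x, ← hS k x]
      exact hx
    have hlow : (∃ (k : ℕ) (C : ℝ), ∀ᶠ x : ℝ in atTop, -(C * Real.log x) ≤ powerMean t m S k x) ↔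
        ∃ (k : ℕ) (C : ℝ), ∀ᶠ x : ℝ in atTop, -(C * Real.log x) ≤ traceMean t m S k x :=
      exists_congr fun k => ⟨bigO_lower (hSZ k), bigO_lower (bigO_symm (hSZ k))⟩
    have hupp : (∃ (k : ℕ) (C : ℝ), ∀ᶠ x : ℝ in atTop, powerMean t m S k x ≤ C * Real.log x) ↔
        ∃ (k : ℕ) (C : ℝ), ∀ᶠ x : ℝ in atTop, traceMean t m S k x ≤ C * Real.log x :=
      exists_congr fun k => ⟨bigO_upper (hSZ k), bigO_upper (bigO_symm (hSZ k))⟩
    have habs : (∃ (k : ℕ) (C : ℝ), ∀ᶠ x : ℝ in atTop, |powerMean t m S k x| ≤ C * Real.log x) ↔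
        ∃ (k : ℕ) (C : ℝ), ∀ᶠ x : ℝ in atTop, |traceMean t m S k x| ≤ C * Real.log x :=
      exists_congr fun k => ⟨bigO_abs (hSZ k), bigO_abs (bigO_symm (hSZ k))⟩
    have hcc : ((((2 * (m : ℝ) - 1) + 1) / 2 : ℝ) : ℂ) = (m : ℂ) := by
      rw [cen, Complex.ofReal_natCast]
    refine ⟨?_, ?_, ?_, ?_⟩
    · intro ρ
      have key := Pool.Agent.W263.MN.zk_tfaeB E hB' ρ
      simp only [hCont, hFull, hOrd, hZ, hlow, hupp, habs] at key
      simp only [cen, and_assoc] at key ⊢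
      exact key
    · intro F n hF hm hn
      rw [← hcc] at hm hn
      refine ⟨(hOrd F n).mp (Pool.Agent.W263.MN.lord_of_mero hm hn), ?_⟩
      have key := Pool.Agent.W263.MN.mero_tfae E hB' ((hCont F).mpr hF) hm hn
      simp only [hFull, hZ, hS, hLD] at key
      simp only [cen, and_assoc] at key ⊢
      have k1 := key.out 1 2
      have k2 := key.out 1 3
      have k3 := key.out 1 4
      have k4 := key.out 1 5
      tfae_have 1 ↔ 2 := k1
      tfae_have 1 ↔ 3 := k2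
      tfae_have 1 ↔ 4 := k3
      tfae_have 1 ↔ 5 := k4
      tfae_finish
    · intro F n hF hm hn hg
      rw [← hcc] at hm hn
      have hd : ∀ s : ℂ, ((2 * (m : ℝ) - 1) + 1) / 2 < s.re → DifferentiableAt ℂ F s := by
        intro s hs
        rw [cen] at hs
        exact hF.1.differentiableAt ((Pool.Agent.W263.BSD.isOpen_half _).mem_nhds hs)
      have he : ∀ s : ℂ, ((2 * (m : ℝ) - 1) + 2) / 2 < s.re →
          F s = Pool.Agent.W263.EP.LFB (Pool.Agent.H341R2.sysK K) S B t s := by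
        intro s hs
        rw [cen2] at hs
        exact hF.2 s hs
      have hg' : ∃ (C : ℝ) (A : ℕ), ∀ s : ℂ, ((2 * (m : ℝ) - 1) + 1) / 2 < s.re →
          ‖F s‖ ≤ C * (1 + ‖s‖) ^ A := by
        rw [cen]
        exact hg
      have key := Pool.Agent.W263.MN.growth_tfae E hB' hd he hm hn hg'
      simp only [hZ, hS] at key
      simp only [cen] at key
      have k1 := key.out 0 1
      have k2 := key.out 0 2
      have k3 := key.out 0 3
      tfae_have 1 ↔ 2 := k1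
      tfae_have 1 ↔ 3 := k2
      tfae_have 1 ↔ 4 := k3
      tfae_finish
    · intro F ρ hF hO k σ
      constructor
      · intro hσ
        have h := Pool.Agent.W263.MN.zk_freq_lower E hB' ((hCont F).mpr hF) ((hOrd F ρ).mpr hO) k hσ
        simp only [hZ] at h
        exact h
      · intro hσ hne
        have h := Pool.Agent.W263.MN.zk_freq_upper E hB' ((hCont F).mpr hF) ((hOrd F ρ).mpr hO)
          (fun s hs => hne s (by rwa [cen] at hs)) k hσ
        simp only [hZ] at h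
        exact h
  · intro K _ _ n f hodd S hS m hm
    refine ⟨by positivity, fun v hv j hj => ?_⟩
    have h1 := Pool.Agent.W263.EP.trHk_bound f hodd (hS v hv) (2 * m - 1) j hj
    have h2 : ∀ i, traceH1 v (f i) j = Pool.Agent.H126T.traceH1 v (f i) 1 j := by
      intro i
      unfold traceH1 Pool.Agent.H126T.traceH1
      rw [map_one, affineCount_eq]
      rfl
    have h3 : traceH f m v j = (Pool.Agent.W263.EP.trHk v f (2 * m - 1) j : ℝ) := by
      unfold traceH Pool.Agent.W263.EP.trHk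
      simp only [h2]
      rfl
    have h4 : ((2 * m - 1 : ℕ) : ℝ) = 2 * (m : ℝ) - 1 := by
      rw [Nat.cast_sub (by omega)]; push_cast; ring
    rw [h3]
    rw [h4] at h1
    exact h1

end Pool.Agent.Results.MP_b8021b_nt.TraceMeans
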